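import Pool.Agent.NBT.StmtsC

/-!
# NBT squad, row LOC (localisation of an `S`-pair at an index)
-/

set_option autoImplicit false

open Matrix Filter Topology

namespace Pool.Agent.NBT.H42

open Pool.Agent.PFS Pool.Agent.PFJ Pool.Agent.NBT

theorem locF (hTbf : TbfStmt) (hPje : PjeStmt) (hPjf : PjfStmt) (hZmi : ZmiStmt)
    (hSxn : SxnStmt) (hZlf : ZlfStmt) (hZlt : ZltStmt) (hSpb : SpbStmt) : LocStmt := by
  intro n C Γ Γ₀ K T c h S W W' hpr i hi hnot
  classical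
  have hC : PCone C := h.cc.toPCone
  obtain ⟨a1, -, -, a4, a5, a6, -⟩ := hTbf n C Γ Γ₀ K T c h W hpr.tw
  obtain ⟨b1, -, -, -, -, b6, -⟩ := hTbf n C Γ Γ₀ K T c h W' hpr.tw'
  obtain ⟨p, hp⟩ := hPje n C Γ Γ₀ K T c h W hpr.tw S
  have hI : ∀ l, l ∈ insert i Sᶜ ↔ l = i ∨ l ∉ S := by
    intro l; rw [Finset.mem_insert, Finset.mem_compl]
  obtain ⟨φ, g, s, U, P, Q, hφ, hg, hs, hZL, -, mv2⟩ :=
    hZmi n C Γ Γ₀ K T c h W hpr.tw (insert i Sᶜ) (fun m : ℕ => (m : ℝ))
      tendsto_natCast_atTop_atTop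
  have hθ : Tendsto (fun m : ℕ => ((φ m : ℕ) : ℝ)) atTop atTop :=
    tendsto_natCast_atTop_atTop.comp hφ.tendsto_atTop
  obtain ⟨z1, z2, -, -, -, z6, -, z8⟩ :=
    hZlf n C Γ Γ₀ K T c h W hpr.tw (insert i Sᶜ) (fun m => ((φ m : ℕ) : ℝ)) g s U P Q hθ hg hs hZL
  have hWi : W' i ∈ BI C W (insert i Sᶜ) := hpr.bnd i hi
  -- the vertices in `S` of `W'` and `W` are congruent modulo small vectors
  have hsm : ∀ l ∈ S, P (W' l) = P (W l) := by
    intro l hl
    have e1 : p (W' l - W l) = 0 := by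
      rw [map_sub, hpr.prj l hl p hp, hp.idB _ ((a6 l S).2 hl), sub_self]
    have e2 := (hp.ker _).1 e1
    have e3 := z6 Sᶜ (Finset.subset_insert i Sᶜ) _ e2
    rw [map_sub, sub_eq_zero] at e3
    exact e3
  -- the limit simplex
  have hlim : ∀ l, Tendsto (fun m => s m • act (g m)
      ((if l ∈ insert i Sᶜ then Real.exp ((φ m : ℕ) : ℝ) else 1) • W' l)) atTop
      (𝓝 (Function.update U i (Q (W' i)) l)) := by
    intro l
    by_cases hli : l = i
    · subst hli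
      rw [Function.update_self]
      have e1 := hZL.limQ (fun _ => W' l) (W' l) (fun _ => hWi) tendsto_const_nhds
      refine e1.congr fun m => ?_
      rw [if_pos ((hI l).2 (Or.inl rfl)), CC.act_smul, smul_smul]
    · rw [Function.update_of_ne hli]
      by_cases hlS : l ∈ S
      · have hn : l ∉ insert i Sᶜ := fun h0 => by
          rcases (hI l).1 h0 with h1 | h1
          · exact hli h1
          · exact h1 hlS
        have e1 := hZL.limP (fun _ => W' l) (W' l) tendsto_const_nhds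
        rw [hsm l hlS, z1 l hn] at e1
        refine e1.congr fun m => ?_
        rw [if_neg hn, one_smul]
      · have e1 := hZL.lim l
        rw [hpr.out l hlS]
        exact e1
  -- comparison of the sums
  have hcmp : ∃ M : ℝ, M • fS W' (insert i Sᶜ) - fS W (insert i Sᶜ) ∈ closure C := by
    have hcond : ∀ l ∈ S, ∀ p' : V n →ₗ[ℝ] V n, PrI C W' S p' → p' (W l) = W' l := by
      intro l hl p' hp'
      obtain ⟨-, -, -, -, -, f6, -⟩ := hPjf n C Γ Γ₀ K T c h W hpr.tw S p hp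
      have e1 := (f6 W' hpr.tw' hpr.out p' hp').2 (W' l) ((b6 l S).2 hl)
      rw [hpr.prj l hl p hp] at e1
      exact e1
    have e1 := hSpb n C Γ Γ₀ K T c h S W' W hpr.tw' hpr.tw hcond i hi
    obtain ⟨M, -, hM⟩ := (b1 (insert i Sᶜ)).2.2 _ e1
    refine ⟨M + 1, ?_⟩
    have hni : i ∉ Sᶜ := fun h0 => (Finset.mem_compl.1 h0) hi
    have f1 : fS W (insert i Sᶜ) = W i + fS W Sᶜ := by
      rw [fS, fS, Finset.sum_insert hni]
    have f2 : fS W' (insert i Sᶜ) = W' i + fS W' Sᶜ := by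
      rw [fS, fS, Finset.sum_insert hni]
    have f3 : fS W' Sᶜ = fS W Sᶜ := by
      rw [fS, fS]
      exact Finset.sum_congr rfl fun l hl => hpr.out l (Finset.mem_compl.1 hl)
    have hcl : W' i ∈ closure C := (h.pes W' hpr.tw').1.cl i
    have f4 : (M + 1) • fS W' (insert i Sᶜ) - fS W (insert i Sᶜ) =
        (M • fS W' (insert i Sᶜ) - W i) + W' i := by
      rw [add_smul, one_smul, f1]
      nth_rewrite 2 [f2]
      rw [f3]
      abel
    rw [f4]
    exact hC.cl_add hM hcl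
  have hTU : T (Function.update U i (Q (W' i))) :=
    hZlt n C Γ Γ₀ K T c h W hpr.tw (insert i Sᶜ) (fun m => ((φ m : ℕ) : ℝ)) g s U P Q hθ hg hs
      hZL W' (Function.update U i (Q (W' i))) hpr.tw' hcmp hlim
  have hmv : Mv T U i (Q (W' i)) := by
    refine ⟨hTU, fun t ht => ?_⟩
    have e1 : Q (W' i - t • W i) = 0 := by
      rw [map_sub, map_smul, z2 i ((hI i).2 (Or.inl rfl)), ht, sub_self]
    have e2 := z8 _ (Submodule.sub_mem _ hWi
      (Submodule.smul_mem _ t ((a6 i _).2 ((hI i).2 (Or.inl rfl))))) e1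
    rw [sub_eq_zero] at e2
    apply hnot
    rw [e2]
    exact Submodule.smul_mem _ t ((a6 i S).2 hi)
  obtain ⟨-, -, -, -, c5, -⟩ := hTbf n C Γ Γ₀ K T c h U hZL.tw
  have hJ : ∀ J : Finset (Fin K), i ∈ J → W' i ∈ BI C W J →
      ∀ r, Sx C U i (Q (W' i)) r → r ∈ J := by
    intro J hiJ hWJ
    have e1 : W' i ∈ BI C W (J ∩ insert i Sᶜ) := by
      rw [← a4]; exact ⟨hWJ, hWi⟩
    have e2 : Q (W' i) ∈ BI C U (J ∩ insert i Sᶜ) := by
      rw [← hZL.mapQ _ Finset.inter_subset_right]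
      exact Submodule.mem_map_of_mem e1
    have e3 : Q (W' i) ∈ BI C U J := c5 _ _ Finset.inter_subset_left e2
    exact ((hSxn n C Γ Γ₀ K T c h U hZL.tw i (Q (W' i)) hmv).2.2 J hiJ).2 e3
  refine ⟨U, Q (W' i), hZL.tw, hmv, ?_, hJ, ?_⟩
  · intro r hr
    have e1 := hJ (insert i Sᶜ) ((hI i).2 (Or.inl rfl)) hWi r hr
    rcases (hI r).1 e1 with h1 | h1
    · exact absurd h1 hr.1
    · exact h1
  · intro k x hkx hk hr
    obtain ⟨m1, m2⟩ := mv2 k x hkx ((hI k).2 hk) (fun r h0 => (hI r).2 (hr r h0))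
    exact ⟨Q x, m1, m2⟩

end Pool.Agent.NBT.H42
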